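import Pool.Agent.X150.TO.Plane

/-! Linear coordinates adapted to an immersed plane and the null set of normals. -/

set_option autoImplicit false
open Set Topology MeasureTheory Filter Metric
open scoped Pointwise

namespace Pool.Agent.X150.TO

abbrev E2 := EuclideanSpace ℝ (Fin 2)
abbrev E3 := EuclideanSpace ℝ (Fin 3)

theorem exists_coord (L : E2 →L[ℝ] E3) (hL : Function.Injective L) :
    ∃ (P : E3 →L[ℝ] ℝ × ℝ) (k : E3 →L[ℝ] ℝ) (e : E3) (T : E2 ≃L[ℝ] ℝ × ℝ),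
      P e = 0 ∧ k e = 1 ∧ (∀ x, P x = 0 → x = k x • e) ∧ (T : E2 →L[ℝ] ℝ × ℝ) = P.comp L := by
  obtain ⟨P0, hP0⟩ := (L : E2 →ₗ[ℝ] E3).exists_leftInverse_of_injective
    (LinearMap.ker_eq_bot.2 hL)
  have hsurj : Function.Surjective P0 := by
    intro y
    exact ⟨L y, by have := LinearMap.congr_fun hP0 y; simpa using this⟩
  have hdim : Module.finrank ℝ (LinearMap.ker P0) = 1 := by
    have h1 := P0.finrank_range_add_finrank_ker
    rw [LinearMap.range_eq_top.2 hsurj, finrank_top, finrank_euclideanSpace, finrank_euclideanSpace,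
      Fintype.card_fin, Fintype.card_fin] at h1
    omega
  obtain ⟨⟨e, he⟩, he0, hspan⟩ := finrank_eq_one_iff'.1 hdim
  have he1 : e ≠ 0 := fun h => he0 (by simpa using h)
  have hfin : Module.finrank ℝ E2 = Module.finrank ℝ (ℝ × ℝ) := by simp
  let T : E2 ≃L[ℝ] ℝ × ℝ := ContinuousLinearEquiv.ofFinrankEq hfin
  have hne : ‖e‖ ^ 2 ≠ 0 := pow_ne_zero 2 (norm_ne_zero_iff.2 he1)
  refine ⟨(T : E2 →L[ℝ] ℝ × ℝ).comp (LinearMap.toContinuousLinearMap P0),
    (‖e‖ ^ 2)⁻¹ • innerSL ℝ e, e, T, ?_, ?_, ?_, ?_⟩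
  · have : P0 e = 0 := he
    simp [this]
  · simp only [smul_apply, innerSL_apply_apply, real_inner_self_eq_norm_sq,
      smul_eq_mul]
    field_simp
  · intro x hx
    have hx0 : P0 x = 0 := by simpa using hx
    obtain ⟨c, hc⟩ := hspan ⟨x, hx0⟩
    have hc' : c • e = x := congrArg Subtype.val hc
    rw [← hc']
    simp only [smul_apply, map_smul, innerSL_apply_apply,
      real_inner_self_eq_norm_sq, smul_eq_mul]
    congr 1
    field_simp
  · ext y
    · have := LinearMap.congr_fun hP0 y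
      simp only [LinearMap.comp_apply, LinearMap.id_apply] at this
      simp only [ContinuousLinearMap.comp_apply, LinearMap.coe_toContinuousLinearMap']
      rw [show P0 (L y) = y from this]
    · have := LinearMap.congr_fun hP0 y
      simp only [LinearMap.comp_apply, LinearMap.id_apply] at this
      simp only [ContinuousLinearMap.comp_apply, LinearMap.coe_toContinuousLinearMap']
      rw [show P0 (L y) = y from this]

/-- the normal vector of the plane `{x | k x = z.1 * (P x).1 + z.2 * (P x).2}` -/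
noncomputable def nrm (P : E3 →L[ℝ] ℝ × ℝ) (k : E3 →L[ℝ] ℝ) (z : ℝ × ℝ) : E3 :=
  (InnerProductSpace.toDual ℝ E3).symm (k - (gd z.1 z.2).comp P)

theorem inner_nrm (P : E3 →L[ℝ] ℝ × ℝ) (k : E3 →L[ℝ] ℝ) (z : ℝ × ℝ) (x : E3) :
    inner ℝ (nrm P k z) x = k x - gd z.1 z.2 (P x) := by
  rw [nrm, InnerProductSpace.toDual_symm_apply]
  simp

theorem continuous_nrm (P : E3 →L[ℝ] ℝ × ℝ) (k : E3 →L[ℝ] ℝ) : Continuous (nrm P k) := by
  unfold nrm gd
  refine (InnerProductSpace.toDual ℝ E3).symm.continuous.comp ?_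
  refine continuous_const.sub ?_
  exact ((continuous_fst.smul continuous_const).add (continuous_snd.smul continuous_const)).clm_comp
    continuous_const

theorem nrm_eq (P : E3 →L[ℝ] ℝ × ℝ) (k : E3 →L[ℝ] ℝ) (z : ℝ × ℝ) :
    nrm P k z = (InnerProductSpace.toDual ℝ E3).symm k
      - z.1 • (InnerProductSpace.toDual ℝ E3).symm ((ContinuousLinearMap.fst ℝ ℝ ℝ).comp P)
      - z.2 • (InnerProductSpace.toDual ℝ E3).symm ((ContinuousLinearMap.snd ℝ ℝ ℝ).comp P) := by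
  refine ext_inner_right ℝ fun x => ?_
  rw [inner_nrm, inner_sub_left, inner_sub_left, real_inner_smul_left, real_inner_smul_left,
    InnerProductSpace.toDual_symm_apply, InnerProductSpace.toDual_symm_apply,
    InnerProductSpace.toDual_symm_apply]
  simp [gd]
  ring

theorem cone_null (P : E3 →L[ℝ] ℝ × ℝ) (k : E3 →L[ℝ] ℝ) {Z : Set (ℝ × ℝ)} (hZ : volume Z = 0) :
    volume {x : E3 | ∃ γ : ℝ, ∃ z ∈ Z, x = γ • nrm P k z} = 0 := by
  have hfin : Module.finrank ℝ E3 = Module.finrank ℝ (ℝ × (ℝ × ℝ)) := by simp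
  let e : E3 ≃L[ℝ] ℝ × (ℝ × ℝ) := ContinuousLinearEquiv.ofFinrankEq hfin
  have h1 : volume ((univ : Set ℝ) ×ˢ Z) = 0 := by
    rw [Measure.volume_eq_prod, Measure.prod_prod, hZ, mul_zero]
  have hq : Measure.QuasiMeasurePreserving e (volume : Measure E3)
      (volume : Measure (ℝ × (ℝ × ℝ))) := by
    have i1 : (Measure.map e (volume : Measure E3)).IsAddHaarMeasure :=
      e.isAddHaarMeasure_map volume
    have i2 : (volume : Measure (ℝ × ℝ)).IsAddHaarMeasure :=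
      Measure.prod.instIsAddHaarMeasure (volume : Measure ℝ) (volume : Measure ℝ)
    have i3 : (volume : Measure (ℝ × (ℝ × ℝ))).IsAddHaarMeasure :=
      Measure.prod.instIsAddHaarMeasure (volume : Measure ℝ) (volume : Measure (ℝ × ℝ))
    exact ⟨e.continuous.measurable, Measure.absolutelyContinuous_isAddHaarMeasure _ _⟩
  have h2 := hq.preimage_null h1
  have hd : DifferentiableOn ℝ (fun x : E3 => (e x).1 • nrm P k (e x).2) (e ⁻¹' (univ ×ˢ Z)) := by
    have : (fun x : E3 => (e x).1 • nrm P k (e x).2) = fun x : E3 => (e x).1 •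
      ((InnerProductSpace.toDual ℝ E3).symm k
      - (e x).2.1 • (InnerProductSpace.toDual ℝ E3).symm ((ContinuousLinearMap.fst ℝ ℝ ℝ).comp P)
      - (e x).2.2 • (InnerProductSpace.toDual ℝ E3).symm
        ((ContinuousLinearMap.snd ℝ ℝ ℝ).comp P)) := by
      funext x
      rw [nrm_eq]
    rw [this]
    fun_prop
  have h3 := addHaar_image_eq_zero_of_differentiableOn_of_addHaar_eq_zero volume hd h2
  refine measure_mono_null ?_ h3
  rintro x ⟨γ, z, hz, rfl⟩
  refine ⟨e.symm (γ, z), ?_, ?_⟩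
  · simp [hz]
  · simp

theorem sphere_null (P : E3 →L[ℝ] ℝ × ℝ) (k : E3 →L[ℝ] ℝ) {Z : Set (ℝ × ℝ)} (hc : IsCompact Z)
    (hZ : volume Z = 0) : (volume : Measure E3).toSphere
      {ν : sphere (0 : E3) 1 | ∃ γ : ℝ, ∃ z ∈ Z, (ν : E3) = γ • nrm P k z} = 0 := by
  have hm : MeasurableSet {ν : sphere (0 : E3) 1 | ∃ γ : ℝ, ∃ z ∈ Z, (ν : E3) = γ • nrm P k z} := by
    have e : {ν : sphere (0 : E3) 1 | ∃ γ : ℝ, ∃ z ∈ Z, (ν : E3) = γ • nrm P k z} =
        ((↑) : sphere (0 : E3) 1 → E3) ⁻¹' (⋃ m : ℕ, (fun q : ℝ × (ℝ × ℝ) => q.1 • nrm P k q.2) ''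
          (Icc (-(m : ℝ)) m ×ˢ Z)) := by
      ext ν
      constructor
      · rintro ⟨γ, z, hz, h⟩
        obtain ⟨m, hm⟩ := exists_nat_ge |γ|
        exact mem_iUnion.2 ⟨m, (γ, z), ⟨abs_le.1 hm, hz⟩, h.symm⟩
      · intro h
        obtain ⟨m, ⟨γ, z⟩, ⟨_, hz⟩, h⟩ := mem_iUnion.1 h
        exact ⟨γ, z, hz, h.symm⟩
    rw [e]
    refine measurable_subtype_coe (MeasurableSet.iUnion fun m => IsCompact.measurableSet ?_)
    refine (isCompact_Icc.prod hc).image ?_
    exact continuous_fst.smul ((continuous_nrm P k).comp continuous_snd)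
  rw [Measure.toSphere_apply' _ hm]
  have h1 : volume (Ioo (0 : ℝ) 1 • (((↑) : sphere (0 : E3) 1 → E3) ''
      {ν : sphere (0 : E3) 1 | ∃ γ : ℝ, ∃ z ∈ Z, (ν : E3) = γ • nrm P k z})) = 0 := by
    refine measure_mono_null ?_ (cone_null P k hZ)
    rintro _ ⟨t, _, _, ⟨ν, ⟨γ, z, hz, h⟩, rfl⟩, rfl⟩
    refine ⟨t * γ, z, hz, ?_⟩
    show t • (ν : E3) = _
    rw [h, smul_smul]
  rw [h1, mul_zero]

theorem normal_line {P : E3 →L[ℝ] ℝ × ℝ} {k : E3 →L[ℝ] ℝ} {e : E3}
    (hPk : ∀ x, P x = 0 → x = k x • e) {z : ℝ × ℝ} {R : Submodule ℝ E3}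
    (hR : ∀ u ∈ R, k u = gd z.1 z.2 (P u)) (hs : ∀ x, ∃ u ∈ R, P u = x) {ν : E3}
    (hν : ∀ u ∈ R, inner ℝ ν u = 0) : ν = (inner ℝ ν e : ℝ) • nrm P k z := by
  refine ext_inner_right ℝ fun x => ?_
  obtain ⟨u, hu, hux⟩ := hs (P x)
  have h1 := hPk (x - u) (by rw [map_sub, hux, sub_self])
  have h2 : x = u + k (x - u) • e := by rw [← h1]; abel
  rw [real_inner_smul_left, inner_nrm]
  conv_lhs => rw [h2]
  rw [inner_add_right, real_inner_smul_right, hν u hu, map_sub, hR u hu, hux]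
  ring

end Pool.Agent.X150.TO
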