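import Pool.Agent.X150.TO.Coord

/-! `C¹` surfaces in Euclidean 3-space, torses and surfaces of bounded extrinsic curvature. -/

set_option autoImplicit false
open Set Topology MeasureTheory Metric
open scoped Manifold ContDiff NNReal ENNReal

namespace Pool.Agent.X150.TO

variable {M : Type*} [TopologicalSpace M] [ChartedSpace E2 M]

/-- The derivative of `F` at `m`. -/
noncomputable def diffl (F : M → E3) (m : M) : E2 →L[ℝ] E3 := mfderiv (𝓡 2) 𝓘(ℝ, E3) F m

/-- `F` is a `C¹` map. -/
def IsC1 (F : M → E3) : Prop := ContMDiff (𝓡 2) 𝓘(ℝ, E3) 1 F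

/-- `F` is a `C¹` immersion of the two-dimensional manifold `M` into Euclidean 3-space. -/
def IsC1Surface (F : M → E3) : Prop := IsC1 F ∧ ∀ m, Function.Injective (diffl F m)

/-- The tangent plane (its direction space, the range of the derivative) at the point `m`. -/
noncomputable def tangentPlane (F : M → E3) (m : M) : Submodule ℝ E3 :=
  LinearMap.range (diffl F m : E2 →ₗ[ℝ] E3)

/-- The surface is a torse: every point `m` is an interior point of a straight segment `[A, B]`
contained in the surface along which the tangent plane is constant. Points of the surface with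
different preimages in `M` are different, so the segment is a continuous curve `γ` in `M`. -/
def IsTorse (F : M → E3) : Prop :=
  ∀ m : M, ∃ (A B : E3) (γ : ℝ → M) (t₀ : ℝ), A ≠ B ∧ ContinuousOn γ (Icc 0 1) ∧
    t₀ ∈ Ioo (0 : ℝ) 1 ∧ γ t₀ = m ∧
    ∀ t ∈ Icc (0 : ℝ) 1, F (γ t) = A + t • (B - A) ∧ tangentPlane F (γ t) = tangentPlane F m

/-- Lebesgue measure on the unit sphere. -/
noncomputable def sphereMeasure : Measure (sphere (0 : E3) 1) := (volume : Measure E3).toSphere

/-- The area of a set on the unit sphere. -/
noncomputable def area (A : Set (sphere (0 : E3) 1)) : ℝ≥0∞ := sphereMeasure A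

/-- `n` is a continuous unit normal on the piece `G` of the surface. -/
def IsUnitNormal (F : M → E3) (G : Set M) (n : M → sphere (0 : E3) 1) : Prop :=
  ContinuousOn n G ∧ ∀ m ∈ G, ∀ u ∈ tangentPlane F m, inner ℝ (n m : E3) u = 0

/-- Bounded extrinsic curvature in the sense of Pogorelov: every point has an open neighbourhood `G`
on which there is a continuous unit normal, and a constant `C`, such that for every continuous unit
normal `n` on `G` and all pairwise disjoint sets `H 0, …, H (N - 1)` contained in and closed in `G`
the areas of the spherical images `n '' H i` have sum at most `C`. -/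
def IsBECP (F : M → E3) : Prop :=
  ∀ p : M, ∃ (G : Set M) (C : ℝ≥0), IsOpen G ∧ p ∈ G ∧ (∃ n, IsUnitNormal F G n) ∧
    ∀ n, IsUnitNormal F G n → ∀ (N : ℕ) (H : Fin N → Set M),
      (∀ i, ∃ K, IsClosed K ∧ H i = K ∩ G) → Pairwise (Function.onFun Disjoint H) →
      ∑ i, area (n '' H i) ≤ C

/-- Every point has an open neighbourhood `G` on which there is a continuous unit normal, and the
spherical image `n '' G` has area zero for every continuous unit normal `n` on `G`. -/
def LocallyNull (F : M → E3) : Prop :=
  ∀ p : M, ∃ G : Set M, IsOpen G ∧ p ∈ G ∧ (∃ n, IsUnitNormal F G n) ∧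
    ∀ n, IsUnitNormal F G n → area (n '' G) = 0

end Pool.Agent.X150.TO
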