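import Pool.Agent.X150.TO.Coord

/-! A `C¹` immersed surface is locally a graph. -/

set_option autoImplicit false
open Set Topology MeasureTheory Filter Metric
open scoped Manifold ContDiff

namespace Pool.Agent.X150.TO

variable {M : Type*} [TopologicalSpace M] [ChartedSpace E2 M]

theorem local_graph [IsManifold (𝓡 2) 1 M] (F : M → E3) (hF : ContMDiff (𝓡 2) 𝓘(ℝ, E3) 1 F) (p : M)
    (hinj : Function.Injective (mfderiv (𝓡 2) 𝓘(ℝ, E3) F p)) :
    ∃ (P : E3 →L[ℝ] ℝ × ℝ) (k : E3 →L[ℝ] ℝ) (e : E3), P e = 0 ∧ k e = 1 ∧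
      (∀ x, P x = 0 → x = k x • e) ∧
      ∃ (G : Set M) (W : Set (ℝ × ℝ)) (f : ℝ × ℝ → ℝ), IsOpen G ∧ p ∈ G ∧ IsOpen W ∧
        (∀ w ∈ W, ContDiffAt ℝ 1 f w) ∧ (∀ m ∈ G, P (F m) ∈ W ∧ k (F m) = f (P (F m))) ∧
        (∀ w ∈ W, ∃ m ∈ G, P (F m) = w) := by
  obtain ⟨φ, hφ⟩ : ∃ φ, φ = extChartAt (𝓡 2) p := ⟨_, rfl⟩
  have hpφ : p ∈ φ.source := by rw [hφ]; exact mem_extChartAt_source p
  have hg : ContDiffOn ℝ 1 (F ∘ φ.symm) φ.target := by
    rw [← contMDiffOn_iff_contDiffOn, hφ]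
    exact hF.comp_contMDiffOn (contMDiffOn_extChartAt_symm p)
  have htgt : φ.target ∈ 𝓝 (φ p) := by rw [hφ]; exact extChartAt_target_mem_nhds p
  have hg0 : ContDiffAt ℝ 1 (F ∘ φ.symm) (φ p) := hg.contDiffAt htgt
  have hL : Function.Injective (fderiv ℝ (F ∘ φ.symm) (φ p)) := by
    have hd : MDifferentiableAt (𝓡 2) 𝓘(ℝ, E3) F p := (hF p).mdifferentiableAt one_ne_zero
    have h1 := hd.mfderiv
    have h2 : (fderiv ℝ (F ∘ φ.symm) (φ p) : E2 →L[ℝ] E3) = mfderiv (𝓡 2) 𝓘(ℝ, E3) F p := by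
      rw [h1, hφ]
      simp only [writtenInExtChartAt, extChartAt_model_space_eq_id, PartialEquiv.refl_coe,
        Function.id_comp, modelWithCornersSelf_coe, range_id, fderivWithin_univ]
    intro x y hxy
    rw [h2] at hxy
    exact hinj hxy
  obtain ⟨P, k, e, T, hPe, hke, hPk, hT⟩ := exists_coord _ hL
  have hPg : ContDiffAt ℝ 1 (P ∘ F ∘ φ.symm) (φ p) := P.contDiff.contDiffAt.comp _ hg0
  have hTd : HasFDerivAt (P ∘ F ∘ φ.symm) (T : E2 →L[ℝ] ℝ × ℝ) (φ p) := by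
    rw [hT]
    exact P.hasFDerivAt.comp _ (hg0.differentiableAt one_ne_zero).hasFDerivAt
  obtain ⟨h, hh⟩ : ∃ h, h = hPg.toOpenPartialHomeomorph _ hTd one_ne_zero := ⟨_, rfl⟩
  have hcoe : (h : E2 → ℝ × ℝ) = P ∘ F ∘ φ.symm := by rw [hh]; rfl
  have hsrc : φ p ∈ h.source := by
    rw [hh]; exact hPg.mem_toOpenPartialHomeomorph_source hTd one_ne_zero
  have hsymm : ContDiffAt ℝ 1 h.symm (h (φ p)) := by
    rw [hh]; exact hPg.to_localInverse hTd one_ne_zero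
  have hf : ContDiffAt ℝ 1 (k ∘ (F ∘ φ.symm) ∘ h.symm) (h (φ p)) := by
    refine k.contDiff.contDiffAt.comp _ (ContDiffAt.comp _ ?_ hsymm)
    rw [h.left_inv hsrc]
    exact hg0
  have hO : IsOpen (h.target ∩ h.symm ⁻¹' (interior φ.target)) :=
    h.isOpen_inter_preimage_symm isOpen_interior
  have hOm : h (φ p) ∈ h.target ∩ h.symm ⁻¹' (interior φ.target) := by
    refine ⟨h.map_source hsrc, ?_⟩
    show h.symm (h (φ p)) ∈ interior φ.target
    rw [h.left_inv hsrc]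
    exact mem_interior_iff_mem_nhds.2 htgt
  obtain ⟨W, hWs, hWo, hWm⟩ := _root_.mem_nhds_iff.1 (inter_mem (hO.mem_nhds hOm)
    (hf.eventually (by simp)))
  have hFc : Continuous F := hF.continuous
  refine ⟨P, k, e, hPe, hke, hPk, (φ.source ∩ φ ⁻¹' h.source) ∩ (fun m => P (F m)) ⁻¹' W, W,
    k ∘ (F ∘ φ.symm) ∘ h.symm, ?_, ?_, hWo, fun w hw => (hWs hw).2, ?_, ?_⟩
  · refine IsOpen.inter ?_ (hWo.preimage (P.continuous.comp hFc))
    rw [hφ]
    exact (continuousOn_extChartAt p).isOpen_inter_preimage (isOpen_extChartAt_source p) h.open_source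
  · refine ⟨⟨hpφ, hsrc⟩, ?_⟩
    show P (F p) ∈ W
    have e1 : h (φ p) = P (F p) := by
      rw [hcoe]
      simp [φ.left_inv hpφ]
    rw [← e1]
    exact hWm
  · rintro m ⟨⟨hm1, hm2⟩, hm3⟩
    refine ⟨hm3, ?_⟩
    have e1 : h (φ m) = P (F m) := by
      rw [hcoe]
      simp [φ.left_inv hm1]
    have e2 : h.symm (P (F m)) = φ m := by rw [← e1, h.left_inv hm2]
    simp [e2, φ.left_inv hm1]
  · intro w hw
    obtain ⟨⟨hw1, hw2⟩, _⟩ := hWs hw
    have hw3 : h.symm w ∈ φ.target := interior_subset hw2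
    have e1 : P (F (φ.symm (h.symm w))) = w := by
      have := h.right_inv hw1
      rw [hcoe] at this
      exact this
    refine ⟨φ.symm (h.symm w), ⟨⟨φ.map_target hw3, ?_⟩, ?_⟩, e1⟩
    · show φ (φ.symm (h.symm w)) ∈ h.source
      rw [φ.right_inv hw3]
      exact h.map_target hw1
    · show P (F _) ∈ W
      rw [e1]
      exact hw

end Pool.Agent.X150.TO
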