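import Pool.Agent.X150.TO.Strip

/-! The gradient of a `C¹` function that is constant along segments has a null range. -/

set_option autoImplicit false
open Set Topology MeasureTheory Filter Metric

namespace Pool.Agent.X150.TO

variable {f a b : ℝ × ℝ → ℝ}

/-- points of `K` with a slope in `[-1, 1]` such that `a, b` are constant along the segment with this
slope of horizontal half-length `η` -/
def hor (K : Set (ℝ × ℝ)) (a b : ℝ × ℝ → ℝ) (η x0 x1 : ℝ) : Set ((ℝ × ℝ) × ℝ) :=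
  {z | z ∈ K ×ˢ Icc (-1 : ℝ) 1 ∧ z.1.1 ∈ Icc x0 x1 ∧ ∀ τ ∈ Icc (-η) η,
    a (z.1.1 + τ, z.1.2 + τ * z.2) = a z.1 ∧ b (z.1.1 + τ, z.1.2 + τ * z.2) = b z.1}

theorem mem_big {c : ℝ × ℝ} {r : ℝ} {z : (ℝ × ℝ) × ℝ} (hz : z ∈ closedBall c r ×ˢ Icc (-1 : ℝ) 1)
    {τ : ℝ} (hτ : |τ| ≤ r) : (z.1.1 + τ, z.1.2 + τ * z.2) ∈ closedBall c (2 * r) := by
  obtain ⟨h1, h2⟩ := hz
  rw [mem_closedBall, Prod.dist_eq, max_le_iff, Real.dist_eq, Real.dist_eq] at h1 ⊢
  obtain ⟨h3, h4⟩ := h1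
  have h5 : |z.2| ≤ 1 := abs_le.2 h2
  have h6 : |τ * z.2| ≤ r := by
    rw [abs_mul]
    calc |τ| * |z.2| ≤ |τ| * 1 := mul_le_mul_of_nonneg_left h5 (abs_nonneg _)
      _ ≤ r := by rw [mul_one]; exact hτ
  constructor
  · have : z.1.1 + τ - c.1 = (z.1.1 - c.1) + τ := by ring
    show |z.1.1 + τ - c.1| ≤ _
    rw [this]
    exact (abs_add_le _ _).trans (by linarith)
  · have : z.1.2 + τ * z.2 - c.2 = (z.1.2 - c.2) + τ * z.2 := by ring
    show |z.1.2 + τ * z.2 - c.2| ≤ _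
    rw [this]
    exact (abs_add_le _ _).trans (by linarith)

theorem mem_small {c : ℝ × ℝ} {r : ℝ} (hr : 0 ≤ r) {p : ℝ × ℝ} (hp : p ∈ closedBall c r) :
    p ∈ closedBall c (2 * r) := closedBall_subset_closedBall (by linarith) hp

theorem isClosed_part {c : ℝ × ℝ} {r : ℝ} (hr : 0 ≤ r) (ha : ContinuousOn a (closedBall c (2 * r)))
    {τ : ℝ} (hτ : |τ| ≤ r) :
    IsClosed {z : (ℝ × ℝ) × ℝ | z ∈ closedBall c r ×ˢ Icc (-1 : ℝ) 1 ∧
      a (z.1.1 + τ, z.1.2 + τ * z.2) = a z.1} := by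
  have hcl : IsClosed (closedBall c r ×ˢ Icc (-1 : ℝ) 1) := isClosed_closedBall.prod isClosed_Icc
  have h1 : ContinuousOn (fun z : (ℝ × ℝ) × ℝ => a (z.1.1 + τ, z.1.2 + τ * z.2) - a z.1)
      (closedBall c r ×ˢ Icc (-1 : ℝ) 1) := by
    refine ContinuousOn.sub ?_ ?_
    · exact ha.comp (f := fun z : (ℝ × ℝ) × ℝ => (z.1.1 + τ, z.1.2 + τ * z.2)) (by fun_prop)
        (fun z hz => mem_big hz hτ)
    · exact ha.comp (f := fun z : (ℝ × ℝ) × ℝ => z.1) (by fun_prop)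
        (fun z hz => mem_small hr hz.1)
  have h2 := h1.preimage_isClosed_of_isClosed hcl (isClosed_singleton (x := (0 : ℝ)))
  have h3 : {z : (ℝ × ℝ) × ℝ | z ∈ closedBall c r ×ˢ Icc (-1 : ℝ) 1 ∧
      a (z.1.1 + τ, z.1.2 + τ * z.2) = a z.1} = (closedBall c r ×ˢ Icc (-1 : ℝ) 1) ∩
      (fun z : (ℝ × ℝ) × ℝ => a (z.1.1 + τ, z.1.2 + τ * z.2) - a z.1) ⁻¹' {0} := by
    ext z
    constructor
    · rintro ⟨h4, h5⟩
      exact ⟨h4, by simp [h5]⟩
    · rintro ⟨h4, h5⟩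
      exact ⟨h4, by simpa [sub_eq_zero] using h5⟩
  rw [h3]
  exact h2

theorem isCompact_hor {c : ℝ × ℝ} {r η : ℝ} (hr : 0 ≤ r) (hη : η ≤ r) {x0 x1 : ℝ}
    (ha : ContinuousOn a (closedBall c (2 * r))) (hb : ContinuousOn b (closedBall c (2 * r))) :
    IsCompact (hor (closedBall c r) a b η x0 x1) := by
  have hK : IsCompact (closedBall c r ×ˢ Icc (-1 : ℝ) 1) :=
    (isCompact_closedBall _ _).prod isCompact_Icc
  refine hK.of_isClosed_subset ?_ (fun z hz => hz.1)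
  have e : hor (closedBall c r) a b η x0 x1 =
      ((closedBall c r ×ˢ Icc (-1 : ℝ) 1) ∩ (fun z : (ℝ × ℝ) × ℝ => z.1.1) ⁻¹' (Icc x0 x1)) ∩
      ⋂ τ ∈ Icc (-η) η, ({z : (ℝ × ℝ) × ℝ | z ∈ closedBall c r ×ˢ Icc (-1 : ℝ) 1 ∧
        a (z.1.1 + τ, z.1.2 + τ * z.2) = a z.1} ∩
        {z : (ℝ × ℝ) × ℝ | z ∈ closedBall c r ×ˢ Icc (-1 : ℝ) 1 ∧
        b (z.1.1 + τ, z.1.2 + τ * z.2) = b z.1}) := by
    ext z
    constructor
    · rintro ⟨h1, h2, h3⟩
      refine ⟨⟨h1, h2⟩, ?_⟩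
      simp only [mem_iInter]
      intro τ hτ
      exact ⟨⟨h1, (h3 τ hτ).1⟩, ⟨h1, (h3 τ hτ).2⟩⟩
    · rintro ⟨⟨h1, h2⟩, h3⟩
      simp only [mem_iInter] at h3
      exact ⟨h1, h2, fun τ hτ => ⟨(h3 τ hτ).1.2, (h3 τ hτ).2.2⟩⟩
  rw [e]
  refine IsClosed.inter ?_ ?_
  · exact (hK.isClosed).inter (isClosed_Icc.preimage (by fun_prop))
  · refine isClosed_biInter fun τ hτ => ?_
    have : |τ| ≤ r := (abs_le.2 hτ).trans hη
    exact (isClosed_part hr ha this).inter (isClosed_part hr hb this)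

/-- the range over one strip is null -/
theorem hor_strip_null {c : ℝ × ℝ} {r η : ℝ} (hr : 0 ≤ r) (hη : η ≤ r) {x0 x1 : ℝ}
    (h01 : x0 < x1) (hx : x1 - x0 ≤ η)
    (hf : ∀ p ∈ closedBall c (2 * r), HasFDerivAt f (gd (a p) (b p)) p)
    (ha : ContinuousOn a (closedBall c (2 * r))) (hb : ContinuousOn b (closedBall c (2 * r))) :
    volume ((fun z : (ℝ × ℝ) × ℝ => (b z.1, a z.1)) '' hor (closedBall c r) a b η x0 x1) = 0 := by
  have hcomp := isCompact_hor (η := η) (x0 := x0) (x1 := x1) hr hη ha hb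
  have hcont : ContinuousOn (fun z : (ℝ × ℝ) × ℝ => (b z.1, a z.1))
      (hor (closedBall c r) a b η x0 x1) := by
    refine ContinuousOn.prodMk ?_ ?_
    · exact hb.comp (f := fun z : (ℝ × ℝ) × ℝ => z.1) (by fun_prop)
        (fun z hz => mem_small hr hz.1.1)
    · exact ha.comp (f := fun z : (ℝ × ℝ) × ℝ => z.1) (by fun_prop)
        (fun z hz => mem_small hr hz.1.1)
  have hmeas := (hcomp.image_of_continuousOn hcont).measurableSet
  rw [Measure.volume_eq_prod, Measure.measure_prod_null hmeas]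
  refine Eventually.of_forall fun β => ?_
  have hub : ∀ ε > 0, ∃ δ > 0, ∀ p ∈ closedBall c (2 * r), ∀ q ∈ closedBall c (2 * r),
      dist p q ≤ δ → |b p - b q| ≤ ε := by
    intro ε hε
    have h1 := (isCompact_closedBall c (2 * r)).uniformContinuousOn_of_continuous hb
    rw [Metric.uniformContinuousOn_iff_le] at h1
    obtain ⟨δ, δ0, h2⟩ := h1 ε hε
    exact ⟨δ, δ0, fun p hp q hq hd => by
      have := h2 p hp q hq hd
      rwa [Real.dist_eq] at this⟩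
  have h1 := strip_null (β := β) (convex_closedBall c (2 * r)) hf hub h01
  refine measure_mono_null ?_ h1
  rintro α ⟨z, hz, hz2⟩
  simp only [Prod.mk.injEq] at hz2
  obtain ⟨h2, h3⟩ := hz2
  refine ⟨z.1, ⟨⟨hz.2.1, z.2, ?_⟩, h2⟩, h3⟩
  intro x hx'
  have hτ : x - z.1.1 ∈ Icc (-η) η := by
    obtain ⟨h4, h5⟩ := hz.2.1
    obtain ⟨h6, h7⟩ := hx'
    constructor <;> linarith
  have h4 := hz.2.2 _ hτ
  have h5 := mem_big hz.1 ((abs_le.2 hτ).trans hη)
  have e : z.1.1 + (x - z.1.1) = x := by ring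
  rw [e] at h4 h5
  exact ⟨h5, h4⟩

/-- the range over the points with a slope in `[-1, 1]` is null -/
theorem hor_null {c : ℝ × ℝ} {r : ℝ} (hr : 0 < r)
    (hf : ∀ p ∈ closedBall c (2 * r), HasFDerivAt f (gd (a p) (b p)) p)
    (ha : ContinuousOn a (closedBall c (2 * r))) (hb : ContinuousOn b (closedBall c (2 * r))) :
    volume ((fun p : ℝ × ℝ => (b p, a p)) '' {p | p ∈ closedBall c r ∧ ∃ s ∈ Icc (-1 : ℝ) 1,
      ∃ δ > 0, ∀ τ : ℝ, |τ| ≤ δ → a (p.1 + τ, p.2 + τ * s) = a p ∧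
        b (p.1 + τ, p.2 + τ * s) = b p}) = 0 := by
  have h1 : volume (⋃ n : ℕ, ⋃ j : ℤ, (fun z : (ℝ × ℝ) × ℝ => (b z.1, a z.1)) ''
      hor (closedBall c r) a b (r / (n + 1)) (j * (r / (n + 1))) ((j + 1) * (r / (n + 1)))) = 0 := by
    refine measure_iUnion_null fun n => measure_iUnion_null fun j => ?_
    have h2 : (0 : ℝ) < r / (n + 1) := by positivity
    refine hor_strip_null hr.le ?_ ?_ ?_ hf ha hb
    · exact div_le_self hr.le (by linarith [(Nat.cast_nonneg n : (0 : ℝ) ≤ n)])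
    · exact mul_lt_mul_of_pos_right (by linarith) h2
    · apply le_of_eq; ring
  refine measure_mono_null ?_ h1
  rintro _ ⟨p, ⟨hp, s, hs, δ, δ0, hδ⟩, rfl⟩
  obtain ⟨n, hn⟩ := exists_nat_gt (r / δ)
  have h2 : (0 : ℝ) < r / (n + 1) := by positivity
  have h3 : r / (n + 1) ≤ δ := by
    rw [div_le_iff₀ (by positivity)]
    rw [div_lt_iff₀ δ0] at hn
    nlinarith
  refine mem_iUnion.2 ⟨n, mem_iUnion.2 ⟨⌊p.1 / (r / (n + 1))⌋, ?_⟩⟩
  refine ⟨(p, s), ⟨⟨hp, hs⟩, ⟨?_, ?_⟩, ?_⟩, rfl⟩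
  · have := Int.floor_le (p.1 / (r / (n + 1)))
    rwa [le_div_iff₀ h2] at this
  · have := (Int.lt_floor_add_one (p.1 / (r / (n + 1)))).le
    rwa [div_le_iff₀ h2] at this
  · intro τ hτ
    exact hδ τ ((abs_le.2 hτ).trans h3)

theorem swap_mem {c p : ℝ × ℝ} {r : ℝ} (hp : p ∈ closedBall c.swap r) :
    p.swap ∈ closedBall c r := by
  rw [mem_closedBall, Prod.dist_eq, max_le_iff] at hp ⊢
  exact ⟨hp.2, hp.1⟩

/-- **Planar theorem.** If a differentiable function of two variables has a continuous gradient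
`(a, b)`, and through every point passes a segment along which the gradient is constant, then the
range of the gradient is locally null. -/
theorem plane_null {W : Set (ℝ × ℝ)} (hW : IsOpen W)
    (hf : ∀ p ∈ W, HasFDerivAt f (gd (a p) (b p)) p)
    (ha : ContinuousOn a W) (hb : ContinuousOn b W)
    (hseg : ∀ p ∈ W, ∃ v : ℝ × ℝ, v ≠ 0 ∧ ∃ δ > 0, ∀ t : ℝ, |t| ≤ δ →
      a (p + t • v) = a p ∧ b (p + t • v) = b p) {c : ℝ × ℝ} (hc : c ∈ W) :
    ∃ r > 0, closedBall c r ⊆ W ∧ volume ((fun p => (a p, b p)) '' closedBall c r) = 0 := by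
  obtain ⟨R, R0, hR⟩ := Metric.nhds_basis_closedBall.mem_iff.1 (hW.mem_nhds hc)
  obtain ⟨r, hr⟩ : ∃ r, r = R / 2 := ⟨_, rfl⟩
  have r0 : 0 < r := by rw [hr]; positivity
  have hRr : R = 2 * r := by rw [hr]; ring
  rw [hRr] at hR
  refine ⟨r, r0, (closedBall_subset_closedBall (by linarith)).trans hR, ?_⟩
  -- points with a flat segment
  have h1 := hor_null r0 (fun p hp => hf p (hR hp)) (ha.mono hR) (hb.mono hR)
  -- points with a steep segment
  have hf' : ∀ p ∈ closedBall c.swap (2 * r),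
      HasFDerivAt (fun p : ℝ × ℝ => f p.swap) (gd (b p.swap) (a p.swap)) p := by
    intro p hp
    have h2 := hf p.swap (hR (swap_mem hp))
    have h3 : HasFDerivAt (fun p : ℝ × ℝ => p.swap)
        ((ContinuousLinearMap.snd ℝ ℝ ℝ).prod (ContinuousLinearMap.fst ℝ ℝ ℝ)) p :=
      (hasFDerivAt_snd (𝕜 := ℝ) (E := ℝ) (F := ℝ) (p := p)).prodMk
        (hasFDerivAt_fst (𝕜 := ℝ) (E := ℝ) (F := ℝ) (p := p))
    have h4 := h2.comp p h3
    have e : (gd (a p.swap) (b p.swap)).comp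
        ((ContinuousLinearMap.snd ℝ ℝ ℝ).prod (ContinuousLinearMap.fst ℝ ℝ ℝ)) =
        gd (b p.swap) (a p.swap) := by
      ext <;> simp [gd]
    rw [e] at h4
    exact h4
  have ha' : ContinuousOn (fun p : ℝ × ℝ => a p.swap) (closedBall c.swap (2 * r)) :=
    (ha.mono hR).comp (f := fun p : ℝ × ℝ => p.swap) continuous_swap.continuousOn
      (fun p hp => swap_mem hp)
  have hb' : ContinuousOn (fun p : ℝ × ℝ => b p.swap) (closedBall c.swap (2 * r)) :=
    (hb.mono hR).comp (f := fun p : ℝ × ℝ => p.swap) continuous_swap.continuousOn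
      (fun p hp => swap_mem hp)
  have h2 := hor_null r0 hf' hb' ha'
  -- the swap is measure preserving
  have h3 : volume (Prod.swap '' ((fun p : ℝ × ℝ => (b p, a p)) '' {p | p ∈ closedBall c r ∧
      ∃ s ∈ Icc (-1 : ℝ) 1, ∃ δ > 0, ∀ τ : ℝ, |τ| ≤ δ → a (p.1 + τ, p.2 + τ * s) = a p ∧
        b (p.1 + τ, p.2 + τ * s) = b p})) = 0 := by
    have h5 := (Measure.measurePreserving_swap (μ := (volume : Measure ℝ))
      (ν := (volume : Measure ℝ)))
    rw [image_swap_eq_preimage_swap]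
    exact h5.quasiMeasurePreserving.preimage_null h1
  refine measure_mono_null ?_ (measure_union_null h3 h2)
  rintro _ ⟨p, hp, rfl⟩
  obtain ⟨v, v0, δ, δ0, hδ⟩ := hseg p (hR (mem_small r0.le hp))
  rcases le_or_gt |v.2| |v.1| with h4 | h4
  · left
    have hv1 : v.1 ≠ 0 := by
      intro h
      rw [h, abs_zero] at h4
      exact v0 (Prod.ext h (abs_eq_zero.1 (le_antisymm h4 (abs_nonneg _))))
    have hv : 0 < |v.1| := abs_pos.2 hv1
    refine ⟨(b p, a p), ⟨p, ⟨hp, v.2 / v.1, ?_, δ * |v.1|, by positivity, ?_⟩, rfl⟩, rfl⟩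
    · refine abs_le.1 ?_
      rw [abs_div, div_le_one hv]
      exact h4
    · intro τ hτ
      have h5 := hδ (τ / v.1) (by rw [abs_div, div_le_iff₀ hv]; exact hτ)
      have e : p + (τ / v.1) • v = (p.1 + τ, p.2 + τ * (v.2 / v.1)) := by
        refine Prod.ext ?_ ?_
        · simp only [Prod.fst_add, Prod.smul_fst, smul_eq_mul]
          field_simp
        · simp only [Prod.snd_add, Prod.smul_snd, smul_eq_mul]
          field_simp
      rwa [e] at h5
  · right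
    have hv : 0 < |v.2| := lt_of_le_of_lt (abs_nonneg _) h4
    have hv2 : v.2 ≠ 0 := abs_pos.1 hv
    refine ⟨p.swap, ⟨swap_mem (by simpa using hp), v.1 / v.2, ?_, δ * |v.2|, by positivity, ?_⟩, ?_⟩
    · refine abs_le.1 ?_
      rw [abs_div, div_le_one hv]
      exact h4.le
    · intro τ hτ
      have h5 := hδ (τ / v.2) (by rw [abs_div, div_le_iff₀ hv]; exact hτ)
      have e : p + (τ / v.2) • v = (p.1 + τ * (v.1 / v.2), p.2 + τ) := by
        refine Prod.ext ?_ ?_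
        · simp only [Prod.fst_add, Prod.smul_fst, smul_eq_mul]
          field_simp
        · simp only [Prod.snd_add, Prod.smul_snd, smul_eq_mul]
          field_simp
      rw [e] at h5
      exact ⟨h5.2, h5.1⟩
    · simp

end Pool.Agent.X150.TO
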