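import Mathlib

/-! Gradients of `C¹` functions that are constant along segments crossing a strip. -/

set_option autoImplicit false
open Set Topology MeasureTheory Filter

namespace Pool.Agent.X150.TO

/-- images under maps with zero derivative are null -/
theorem null_image {ι : Type*} (E : Set ι) (a σ : ι → ℝ)
    (h : ∀ ε > 0, ∃ δ > 0, ∀ p ∈ E, ∀ q ∈ E, |σ p - σ q| ≤ δ → |a p - a q| ≤ ε * |σ p - σ q|) :
    volume (a '' E) = 0 := by
  classical
  have hsec : ∀ y ∈ σ '' E, ∃ p, p ∈ E ∧ σ p = y := fun y hy => hy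
  set φ : ℝ → ℝ := fun y => if hy : y ∈ σ '' E then a (Classical.choose (hsec y hy)) else 0 with hφd
  have hφ : ∀ p ∈ E, φ (σ p) = a p := by
    intro p hp
    have hy : σ p ∈ σ '' E := ⟨p, hp, rfl⟩
    simp only [hφd, dif_pos hy]
    obtain ⟨h1, h2⟩ := Classical.choose_spec (hsec _ hy)
    obtain ⟨δ, δ0, hδ⟩ := h 1 one_pos
    have h3 := hδ _ h1 p hp (by rw [h2, sub_self, abs_zero]; exact δ0.le)
    rw [h2, sub_self, abs_zero, mul_zero] at h3
    exact sub_eq_zero.1 (abs_eq_zero.1 (le_antisymm h3 (abs_nonneg _)))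
  have him : a '' E = φ '' (σ '' E) := by
    rw [image_image]
    exact image_congr fun p hp => (hφ p hp).symm
  rw [him]
  refine addHaar_image_eq_zero_of_det_fderivWithin_eq_zero volume (f' := fun _ => 0) ?_ ?_
  · rintro _ ⟨p, hp, rfl⟩
    rw [hasFDerivWithinAt_iff_isLittleO, Asymptotics.isLittleO_iff]
    intro ε hε
    obtain ⟨δ, δ0, hδ⟩ := h ε hε
    filter_upwards [inter_mem_nhdsWithin _ (Metric.closedBall_mem_nhds (σ p) δ0)] with y hy
    obtain ⟨⟨q, hq, rfl⟩, hd⟩ := hy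
    rw [hφ q hq, hφ p hp]
    simp only [zero_apply, sub_zero, Real.norm_eq_abs]
    rw [Metric.mem_closedBall, Real.dist_eq] at hd
    exact hδ q hq p hp hd
  · intro x _
    simp [ContinuousLinearMap.det]

/-- the total derivative with the two partial derivatives -/
abbrev gd (a b : ℝ) : ℝ × ℝ →L[ℝ] ℝ :=
  a • ContinuousLinearMap.fst ℝ ℝ ℝ + b • ContinuousLinearMap.snd ℝ ℝ ℝ

variable {B : Set (ℝ × ℝ)} {f a b : ℝ × ℝ → ℝ} {x0 x1 β : ℝ}

/-- a small vertical step -/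
theorem vert (hB : Convex ℝ B) (hf : ∀ p ∈ B, HasFDerivAt f (gd (a p) (b p)) p) {δ ε : ℝ}
    (hδ : ∀ p ∈ B, ∀ q ∈ B, dist p q ≤ δ → |b p - b q| ≤ ε) {x t t' : ℝ}
    (h1 : (x, t) ∈ B) (h2 : (x, t') ∈ B) (hb : b (x, t) = β) (hd : |t - t'| ≤ δ) :
    |(f (x, t) - β * t) - (f (x, t') - β * t')| ≤ ε * |t - t'| := by
  have hseg : ∀ y ∈ uIcc t' t, (x, y) ∈ B := by
    intro y hy
    have hy' : y ∈ segment ℝ t' t := by rwa [segment_eq_uIcc]
    obtain ⟨α, γ, h3, h4, h5, rfl⟩ := hy'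
    have := hB h2 h1 h3 h4 h5
    have e1 : α • (x, t') + γ • (x, t) = (x, α • t' + γ • t) := by
      simp only [Prod.smul_mk, Prod.mk_add_mk, Prod.mk.injEq, smul_eq_mul, and_true]
      rw [← add_mul, h5, one_mul]
    rwa [e1] at this
  have hder : ∀ y ∈ uIcc t' t,
      HasDerivWithinAt (fun y => f (x, y) - β * y) (b (x, y) - β) (uIcc t' t) y := by
    intro y hy
    have h3 := hf _ (hseg y hy)
    have h4 : HasDerivAt (fun y : ℝ => ((x, y) : ℝ × ℝ)) ((0 : ℝ), (1 : ℝ)) y :=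
      (hasDerivAt_const y x).prodMk (hasDerivAt_id y)
    have h5 := h3.comp_hasDerivAt y h4
    have e1 : gd (a (x, y)) (b (x, y)) ((0 : ℝ), (1 : ℝ)) = b (x, y) := by simp [gd]
    rw [e1] at h5
    have h6 := h5.sub ((hasDerivAt_id y).const_mul β)
    simp only [mul_one] at h6
    exact h6.hasDerivWithinAt
  have := Convex.norm_image_sub_le_of_norm_hasDerivWithin_le (C := ε) hder (by
    intro y hy
    rw [Real.norm_eq_abs, ← hb]
    refine hδ _ (hseg y hy) _ h1 ?_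
    rw [Prod.dist_eq, dist_self, max_eq_right dist_nonneg, Real.dist_eq]
    have h6 := abs_sub_right_of_mem_uIcc hy
    show |y - t| ≤ δ
    rw [abs_sub_comm y t]
    exact h6.trans hd) (convex_uIcc t' t)
    left_mem_uIcc right_mem_uIcc
  rwa [Real.norm_eq_abs, Real.norm_eq_abs] at this

/-- `f - βy` along a segment on which the gradient is `(A, β)` -/
theorem along (hf : ∀ p ∈ B, HasFDerivAt f (gd (a p) (b p)) p) (h01 : x0 < x1) {s c A : ℝ}
    (hseg : ∀ x ∈ Icc x0 x1, (x, c + x * s) ∈ B ∧ a (x, c + x * s) = A ∧ b (x, c + x * s) = β) :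
    (f (x1, c + x1 * s) - β * (c + x1 * s)) - (f (x0, c + x0 * s) - β * (c + x0 * s)) =
      (x1 - x0) * A := by
  have hder : ∀ x ∈ Icc x0 x1,
      HasDerivAt (fun x => f (x, c + x * s) - β * (c + x * s)) A x := by
    intro x hx
    obtain ⟨h1, h2, h3⟩ := hseg x hx
    have h4 := hf _ h1
    rw [h2, h3] at h4
    have h5 : HasDerivAt (fun x : ℝ => ((x, c + x * s) : ℝ × ℝ)) ((1 : ℝ), s) x := by
      refine (hasDerivAt_id x).prodMk ?_
      have := ((hasDerivAt_id x).mul_const s).const_add c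
      simpa using this
    have h6 := h4.comp_hasDerivAt x h5
    have e1 : gd A β ((1 : ℝ), s) = A + β * s := by simp [gd]
    rw [e1] at h6
    have h7 : HasDerivAt (fun x : ℝ => β * (c + x * s)) (β * s) x := by
      have := (((hasDerivAt_id x).mul_const s).const_add c).const_mul β
      simpa using this
    have h8 := h6.sub h7
    have e2 : A + β * s - β * s = A := by ring
    rw [e2] at h8
    exact h8
  obtain ⟨ξ, hξ, h⟩ := exists_hasDerivAt_eq_slope
    (fun x => f (x, c + x * s) - β * (c + x * s)) (fun _ => A) h01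
    (fun x hx => (hder x hx).continuousAt.continuousWithinAt)
    (fun x hx => hder x (Ioo_subset_Icc_self hx))
  have h9 : x1 - x0 ≠ 0 := (sub_pos.2 h01).ne'
  rw [h]
  field_simp

/-- a nonvanishing affine function on `[x0, x1]` -/
theorem affine_sign (h01 : x0 < x1) {c s : ℝ} (h : ∀ x ∈ Icc x0 x1, c + x * s ≠ 0) :
    |(c + x0 * s) + (c + x1 * s)| = |c + x0 * s| + |c + x1 * s| := by
  by_contra hne
  have h1 : (c + x0 * s) * (c + x1 * s) < 0 := by
    by_contra h2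
    push Not at h2
    apply hne
    rcases mul_nonneg_iff.1 h2 with ⟨h3, h4⟩ | ⟨h3, h4⟩
    · rw [abs_of_nonneg h3, abs_of_nonneg h4, abs_of_nonneg (add_nonneg h3 h4)]
    · rw [abs_of_nonpos h3, abs_of_nonpos h4, abs_of_nonpos (add_nonpos h3 h4)]
      ring
  have hcont : ContinuousOn (fun x : ℝ => c + x * s) (Icc x0 x1) := by fun_prop
  rcases mul_neg_iff.1 h1 with ⟨h3, h4⟩ | ⟨h3, h4⟩
  · obtain ⟨x, hx, hx0⟩ := intermediate_value_Icc' h01.le hcont (show (0 : ℝ) ∈ _ from ⟨h4.le, h3.le⟩)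
    exact h x hx hx0
  · obtain ⟨x, hx, hx0⟩ := intermediate_value_Icc h01.le hcont (show (0 : ℝ) ∈ _ from ⟨h3.le, h4.le⟩)
    exact h x hx hx0

/-- the set of points `p` for which `a, b` are constant along a segment through `p` crossing the
strip `x0 ≤ x ≤ x1` -/
def strip (B : Set (ℝ × ℝ)) (a b : ℝ × ℝ → ℝ) (x0 x1 : ℝ) : Set (ℝ × ℝ) :=
  {p | p.1 ∈ Icc x0 x1 ∧ ∃ s : ℝ, ∀ x ∈ Icc x0 x1, (x, p.2 + (x - p.1) * s) ∈ B ∧
    a (x, p.2 + (x - p.1) * s) = a p ∧ b (x, p.2 + (x - p.1) * s) = b p}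

theorem strip_null (hB : Convex ℝ B) (hf : ∀ p ∈ B, HasFDerivAt f (gd (a p) (b p)) p)
    (hu : ∀ ε > 0, ∃ δ > 0, ∀ p ∈ B, ∀ q ∈ B, dist p q ≤ δ → |b p - b q| ≤ ε)
    (h01 : x0 < x1) : volume (a '' (strip B a b x0 x1 ∩ {p | b p = β})) = 0 := by
  classical
  have hs : ∀ p ∈ strip B a b x0 x1, ∃ s : ℝ, ∀ x ∈ Icc x0 x1, (x, p.2 + (x - p.1) * s) ∈ B ∧
    a (x, p.2 + (x - p.1) * s) = a p ∧ b (x, p.2 + (x - p.1) * s) = b p := fun p hp => hp.2
  choose! s hs using hs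
  -- the intercepts
  obtain ⟨c, hc⟩ : ∃ c : ℝ × ℝ → ℝ, ∀ p, c p = p.2 - p.1 * s p := ⟨_, fun _ => rfl⟩
  have hs' : ∀ p ∈ strip B a b x0 x1, ∀ x ∈ Icc x0 x1, (x, c p + x * s p) ∈ B ∧
      a (x, c p + x * s p) = a p ∧ b (x, c p + x * s p) = b p := by
    intro p hp x hx
    have e : c p + x * s p = p.2 + (x - p.1) * s p := by rw [hc]; ring
    rw [e]
    exact hs p hp x hx
  refine null_image _ a (fun p => (c p + x0 * s p) + (c p + x1 * s p)) ?_
  intro ε hε
  obtain ⟨δ, δ0, hδ⟩ := hu (ε * (x1 - x0)) (mul_pos hε (sub_pos.2 h01))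
  refine ⟨δ, δ0, ?_⟩
  rintro p ⟨hp, hpb⟩ q ⟨hq, hqb⟩ hd
  simp only [mem_ofPred_eq] at hpb hqb
  by_cases hab : a p = a q
  · rw [hab, sub_self, abs_zero]; positivity
  have hne : ∀ x ∈ Icc x0 x1, (c p - c q) + x * (s p - s q) ≠ 0 := by
    intro x hx h0
    apply hab
    rw [← (hs' p hp x hx).2.1, ← (hs' q hq x hx).2.1]
    have : c p + x * s p = c q + x * s q := by linarith
    rw [this]
  have h1 := affine_sign h01 hne
  have e0 : (c p - c q) + x0 * (s p - s q) = (c p + x0 * s p) - (c q + x0 * s q) := by ring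
  have e1 : (c p - c q) + x1 * (s p - s q) = (c p + x1 * s p) - (c q + x1 * s q) := by ring
  rw [e0, e1] at h1
  have e2 : (c p + x0 * s p) + (c p + x1 * s p) - ((c q + x0 * s q) + (c q + x1 * s q)) =
    (c p + x0 * s p) - (c q + x0 * s q) + ((c p + x1 * s p) - (c q + x1 * s q)) := by ring
  rw [e2, h1] at hd ⊢
  have hx0 : x0 ∈ Icc x0 x1 := ⟨le_rfl, h01.le⟩
  have hx1 : x1 ∈ Icc x0 x1 := ⟨h01.le, le_rfl⟩
  have hp0 := hs' p hp x0 hx0
  have hp1 := hs' p hp x1 hx1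
  have hq0 := hs' q hq x0 hx0
  have hq1 := hs' q hq x1 hx1
  have v0 := vert (β := β) hB hf hδ hp0.1 hq0.1 (by rw [hp0.2.2, hpb])
    ((le_add_of_nonneg_right (abs_nonneg _)).trans hd)
  have v1 := vert (β := β) hB hf hδ hp1.1 hq1.1 (by rw [hp1.2.2, hpb])
    ((le_add_of_nonneg_left (abs_nonneg _)).trans hd)
  have l1 := along (β := β) hf h01 (s := s p) (c := c p) (A := a p)
    (fun x hx => by rw [← hpb]; exact hs' p hp x hx)
  have l2 := along (β := β) hf h01 (s := s q) (c := c q) (A := a q)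
    (fun x hx => by rw [← hqb]; exact hs' q hq x hx)
  have h2 : (x1 - x0) * (a p - a q) =
      ((f (x1, c p + x1 * s p) - β * (c p + x1 * s p)) -
        (f (x1, c q + x1 * s q) - β * (c q + x1 * s q))) -
      ((f (x0, c p + x0 * s p) - β * (c p + x0 * s p)) -
        (f (x0, c q + x0 * s q) - β * (c q + x0 * s q))) := by
    linarith
  have h3 : (x1 - x0) * |a p - a q| ≤
      (x1 - x0) * (ε * (|c p + x0 * s p - (c q + x0 * s q)| +
        |c p + x1 * s p - (c q + x1 * s q)|)) := by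
    rw [← abs_of_pos (sub_pos.2 h01), ← abs_mul, abs_of_pos (sub_pos.2 h01), h2]
    refine (abs_sub _ _).trans ?_
    nlinarith [v0, v1]
  exact le_of_mul_le_mul_left h3 (sub_pos.2 h01)

end Pool.Agent.X150.TO
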