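import Pool.Agent.X150.TO.Graph
import Pool.Agent.X150.TO.Defs

/-! `C¹` torses have locally null spherical image. -/

set_option autoImplicit false
open Set Topology MeasureTheory Filter Metric
open scoped Manifold ContDiff NNReal

namespace Pool.Agent.X150.TO

variable {M : Type*} [TopologicalSpace M] [ChartedSpace E2 M]

theorem gd_eta (L : ℝ × ℝ →L[ℝ] ℝ) : gd (L (1, 0)) (L (0, 1)) = L := by
  ext <;> simp [gd]

variable {F : M → E3} {P : E3 →L[ℝ] ℝ × ℝ} {k : E3 →L[ℝ] ℝ} {e : E3} {G : Set M}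
  {W : Set (ℝ × ℝ)} {f : ℝ × ℝ → ℝ}

theorem deriv_rel (hF : IsC1Surface F) (hG : IsOpen G) (hfW : ∀ w ∈ W, ContDiffAt ℝ 1 f w)
    (hGW : ∀ m ∈ G, P (F m) ∈ W ∧ k (F m) = f (P (F m))) {m : M} (hm : m ∈ G) :
    ∀ u ∈ tangentPlane F m, k u = fderiv ℝ f (P (F m)) (P u) := by
  rintro _ ⟨x, rfl⟩
  have h1 : HasMFDerivAt (𝓡 2) 𝓘(ℝ, E3) F m (mfderiv (𝓡 2) 𝓘(ℝ, E3) F m) :=
    ((hF.1 m).mdifferentiableAt one_ne_zero).hasMFDerivAt
  have h2 : HasMFDerivAt (𝓡 2) 𝓘(ℝ, ℝ) (k ∘ F) m _ := (k.hasMFDerivAt (x := F m)).comp m h1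
  have h3 : HasMFDerivAt (𝓡 2) 𝓘(ℝ, ℝ × ℝ) (P ∘ F) m _ := (P.hasMFDerivAt (x := F m)).comp m h1
  have hfd : HasFDerivAt f (fderiv ℝ f (P (F m))) (P (F m)) :=
    ((hfW _ (hGW m hm).1).differentiableAt one_ne_zero).hasFDerivAt
  have h4 : HasMFDerivAt (𝓡 2) 𝓘(ℝ, ℝ) (f ∘ (P ∘ F)) m _ :=
    HasMFDerivAt.comp m (show HasMFDerivAt 𝓘(ℝ, ℝ × ℝ) 𝓘(ℝ, ℝ) f ((P ∘ F) m) _ from
      hfd.hasMFDerivAt) h3
  have h5 : (k ∘ F) =ᶠ[𝓝 m] (f ∘ (P ∘ F)) := by
    filter_upwards [hG.mem_nhds hm] with y hy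
    exact (hGW y hy).2
  have h6 := h4.congr_of_eventuallyEq h5
  have h7 := hasMFDerivAt_unique h2 h6
  have h8 := congrArg (fun L : E2 →L[ℝ] ℝ => L x) h7
  exact h8

theorem surj_rel (hF : IsC1Surface F) (hPk : ∀ x, P x = 0 → x = k x • e) {m : M}
    {L : ℝ × ℝ →L[ℝ] ℝ} (hrel : ∀ u ∈ tangentPlane F m, k u = L (P u)) :
    ∀ x, ∃ u ∈ tangentPlane F m, P u = x := by
  obtain ⟨D, hD⟩ : ∃ D : E2 →L[ℝ] E3, D = diffl F m := ⟨_, rfl⟩
  have hDinj : Function.Injective D := by rw [hD]; exact hF.2 m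
  have hDm : ∀ y, D y ∈ tangentPlane F m := by
    intro y
    rw [hD]
    exact ⟨y, rfl⟩
  have hinj : Function.Injective ((P : E3 →ₗ[ℝ] ℝ × ℝ) ∘ₗ (D : E2 →ₗ[ℝ] E3)) := by
    rw [← LinearMap.ker_eq_bot, LinearMap.ker_eq_bot']
    intro y hy
    have hy' : P (D y) = 0 := hy
    have h1 := hPk _ hy'
    rw [hrel _ (hDm y), hy', map_zero, zero_smul] at h1
    exact hDinj (by rw [h1, map_zero])
  have hsurj := (LinearMap.injective_iff_surjective_of_finrank_eq_finrank (by simp)).1 hinj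
  intro x
  obtain ⟨y, hy⟩ := hsurj x
  exact ⟨D y, hDm y, hy⟩

theorem seg_rel (hF : IsC1Surface F) (hT : IsTorse F) (hPk : ∀ x, P x = 0 → x = k x • e)
    (hG : IsOpen G) (hfW : ∀ w ∈ W, ContDiffAt ℝ 1 f w)
    (hGW : ∀ m ∈ G, P (F m) ∈ W ∧ k (F m) = f (P (F m))) {m : M} (hm : m ∈ G) :
    ∃ v : ℝ × ℝ, v ≠ 0 ∧ ∃ δ > 0, ∀ t : ℝ, |t| ≤ δ →
      fderiv ℝ f (P (F m) + t • v) = fderiv ℝ f (P (F m)) := by
  obtain ⟨A, B, γ, t₀, hAB, hγ, ht₀, hγ0, hseg⟩ := hT m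
  have hIcc : Icc (0 : ℝ) 1 ∈ 𝓝 t₀ := Icc_mem_nhds ht₀.1 ht₀.2
  have hγc : ContinuousAt γ t₀ := hγ.continuousAt hIcc
  have hev : {t | γ t ∈ G ∧ t ∈ Icc (0 : ℝ) 1} ∈ 𝓝 t₀ := by
    refine inter_mem ?_ hIcc
    exact hγc (by rw [hγ0]; exact hG.mem_nhds hm)
  obtain ⟨δ, δ0, hδ⟩ := Metric.nhds_basis_closedBall.mem_iff.1 hev
  have hδ' : ∀ s : ℝ, |s| ≤ δ → γ (t₀ + s) ∈ G ∧ t₀ + s ∈ Icc (0 : ℝ) 1 := by
    intro s hs
    refine hδ ?_
    rw [mem_closedBall, Real.dist_eq]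
    simpa using hs
  have hFm : F m = A + t₀ • (B - A) := by
    rw [← (hseg t₀ (Ioo_subset_Icc_self ht₀)).1, hγ0]
  have hFs : ∀ s : ℝ, |s| ≤ δ → F (γ (t₀ + s)) = F m + s • (B - A) := by
    intro s hs
    rw [(hseg _ (hδ' s hs).2).1, hFm, add_smul, add_assoc]
  have hPs : ∀ s : ℝ, |s| ≤ δ → P (F (γ (t₀ + s))) = P (F m) + s • P (B - A) := by
    intro s hs
    rw [hFs s hs, map_add, map_smul]
  refine ⟨P (B - A), ?_, δ, δ0, ?_⟩
  · intro h0
    have h1 := hPs δ (by rw [abs_of_pos δ0])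
    rw [h0, smul_zero, add_zero] at h1
    have h2 := (hGW _ (hδ' δ (by rw [abs_of_pos δ0])).1).2
    rw [h1, ← (hGW m hm).2, hFs δ (by rw [abs_of_pos δ0]), map_add, map_smul] at h2
    have h3 : δ • k (B - A) = 0 := by linear_combination h2
    have h4 : k (B - A) = 0 := (smul_eq_zero.1 h3).resolve_left δ0.ne'
    have h5 := hPk _ h0
    rw [h4, zero_smul] at h5
    exact hAB (sub_eq_zero.1 h5).symm
  · intro s hs
    have hrel := deriv_rel hF hG hfW hGW hm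
    have hrel' := deriv_rel hF hG hfW hGW (hδ' s hs).1
    rw [hPs s hs] at hrel'
    refine ContinuousLinearMap.ext fun x => ?_
    obtain ⟨u, hu, hux⟩ := surj_rel hF hPk hrel x
    have h1 := hrel u hu
    have h2 := hrel' u (by rw [(hseg _ (hδ' s hs).2).2]; exact hu)
    rw [h1, hux] at h2
    exact h2.symm

/-- the spherical image of a small piece of a torse is null -/
theorem null_spherical [IsManifold (𝓡 2) 1 M] (hF : IsC1Surface F) (hT : IsTorse F) :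
    LocallyNull F := by
  intro p
  obtain ⟨P, k, e, hPe, hke, hPk, G, W, f, hG, hpG, hW, hfW, hGW, hWG⟩ :=
    local_graph F hF.1 p (hF.2 p)
  have hderiv : ∀ w ∈ W, HasFDerivAt f (fderiv ℝ f w) w := fun w hw =>
    ((hfW w hw).differentiableAt one_ne_zero).hasFDerivAt
  have hcd : ContinuousOn (fderiv ℝ f) W := by
    intro w hw
    have h1 : ContDiffAt ℝ 0 (fderiv ℝ f) w := (hfW w hw).fderiv_right (by simp)
    exact h1.continuousAt.continuousWithinAt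
  have ha : ContinuousOn (fun w => fderiv ℝ f w (1, 0)) W := hcd.clm_apply continuousOn_const
  have hb : ContinuousOn (fun w => fderiv ℝ f w (0, 1)) W := hcd.clm_apply continuousOn_const
  have hplane := plane_null (f := f) (a := fun w => fderiv ℝ f w (1, 0))
    (b := fun w => fderiv ℝ f w (0, 1)) hW (fun w hw => by rw [gd_eta]; exact hderiv w hw) ha hb
    (by
      intro w hw
      obtain ⟨m, hm, rfl⟩ := hWG w hw
      obtain ⟨v, v0, δ, δ0, hδ⟩ := seg_rel hF hT hPk hG hfW hGW hm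
      exact ⟨v, v0, δ, δ0, fun t ht => by simp only [hδ t ht, and_self]⟩) (hGW p hpG).1
  obtain ⟨r, r0, hr, hnull⟩ := hplane
  have hZc : IsCompact ((fun w => (fderiv ℝ f w (1, 0), fderiv ℝ f w (0, 1))) ''
      closedBall (P (F p)) r) :=
    (isCompact_closedBall _ _).image_of_continuousOn ((ha.prodMk hb).mono hr)
  have hFc : Continuous F := hF.1.continuous
  have hrel : ∀ m ∈ G, ∀ u ∈ tangentPlane F m,
      k u = gd (fderiv ℝ f (P (F m)) (1, 0)) (fderiv ℝ f (P (F m)) (0, 1)) (P u) := by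
    intro m hm u hu
    rw [gd_eta]
    exact deriv_rel hF hG hfW hGW hm u hu
  refine ⟨G ∩ (fun m => P (F m)) ⁻¹' ball (P (F p)) r,
    hG.inter (isOpen_ball.preimage (P.continuous.comp hFc)), ⟨hpG, mem_ball_self r0⟩, ?_, ?_⟩
  · -- existence of a continuous unit normal
    have hN : ∀ z : ℝ × ℝ, nrm P k z ≠ 0 := by
      intro z h0
      have h1 := inner_nrm P k z e
      rw [h0, inner_zero_left, hPe, hke, map_zero] at h1
      norm_num at h1
    refine ⟨fun m => ⟨‖nrm P k (fderiv ℝ f (P (F m)) (1, 0), fderiv ℝ f (P (F m)) (0, 1))‖⁻¹ •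
      nrm P k (fderiv ℝ f (P (F m)) (1, 0), fderiv ℝ f (P (F m)) (0, 1)), ?_⟩, ?_, ?_⟩
    · rw [mem_sphere_zero_iff_norm, norm_smul, norm_inv, norm_norm,
        inv_mul_cancel₀ (norm_ne_zero_iff.2 (hN _))]
    · rw [Topology.IsInducing.subtypeVal.continuousOn_iff]
      have h1 : ContinuousOn (fun m => nrm P k (fderiv ℝ f (P (F m)) (1, 0),
          fderiv ℝ f (P (F m)) (0, 1))) (G ∩ (fun m => P (F m)) ⁻¹' ball (P (F p)) r) := by
        refine (continuous_nrm P k).comp_continuousOn ?_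
        exact (ha.prodMk hb).comp (f := fun m => P (F m)) (P.continuous.comp hFc).continuousOn
          (fun m hm => (hGW m hm.1).1)
      exact (h1.norm.inv₀ (fun m _ => norm_ne_zero_iff.2 (hN _))).smul h1
    · rintro m ⟨hm, _⟩ u hu
      simp only
      rw [real_inner_smul_left, inner_nrm, ← hrel m hm u hu, sub_self, mul_zero]
  · rintro n ⟨_, hn⟩
    refine measure_mono_null ?_ (sphere_null P k hZc hnull)
    rintro _ ⟨m, hm, rfl⟩
    refine ⟨inner ℝ (n m : E3) e, (fderiv ℝ f (P (F m)) (1, 0), fderiv ℝ f (P (F m)) (0, 1)),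
      ⟨P (F m), ball_subset_closedBall hm.2, rfl⟩, ?_⟩
    exact normal_line hPk (hrel m hm.1)
      (surj_rel hF hPk (deriv_rel hF hG hfW hGW hm.1)) (hn m hm)

theorem becp [IsManifold (𝓡 2) 1 M] (hF : IsC1Surface F) (hT : IsTorse F) : IsBECP F := by
  intro p
  obtain ⟨G, hG, hp, hex, hall⟩ := null_spherical hF hT p
  refine ⟨G, 0, hG, hp, hex, ?_⟩
  intro n hn N H hH _
  refine le_of_eq ?_
  rw [ENNReal.coe_zero]
  refine Finset.sum_eq_zero fun i _ => ?_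
  obtain ⟨K, _, hK⟩ := hH i
  refine measure_mono_null (image_mono ?_) (hall n hn)
  rw [hK]
  exact inter_subset_right

end Pool.Agent.X150.TO
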